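import Pool.Agent.Helper41.LD5.Defs2
import Pool.Agent.Helper68.LD5.FPA
import Pool.Agent.Helper31.LD5.TPA
import Pool.Agent.Helper31.LD5.NRE
import Pool.Agent.Helper94.LD5.COR1
import Pool.Agent.Helper5.LD5.SQ1
import Pool.Agent.Helper14.LD4.PCA
import Pool.Agent.Helper47.LD4.N2

/-!
# Project LD5, block TST1: the test of a linear class
-/

set_option autoImplicit false

namespace Pool.Agent.Helper14.LD5

open Set MeasureTheory Filter Topology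
open Pool.Agent.Helper41.LD (av var haar DiscLe Dioph Kk)
open Pool.Agent.Helper41.LD2 (EqA)
open Pool.Agent.Helper41.LD3 (Cst Us tm fr lamG lin fr_pos tm_spec tm_le tm_gt tm_mono)
open Pool.Agent.Helper41.LD4
open Pool.Agent.Helper41.LD5
open Pool.Agent.Helper17.LD4 (sys_all)
open Pool.Agent.Helper14.LD4 (corr_all ty_cases div_mod_inj)
open Pool.Agent.Helper47.LD4 (few4)
open Pool.Agent.Helper5.LD4 (int_lin)
open Pool.Agent.Helper68.LD5 (fp_pos fp_mono pwf_deriv pwf_meas fp_near pwf_lin)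
open Pool.Agent.Helper94.LD5 (corr_far5_of corr_near5)
open Pool.Agent.Helper5.LD5 (cv_int cv_far)

section

variable {τ : ℕ → ℝ} {ty : ℕ → ℕ × ℕ × ℕ} {g Q R CF DF Cb m Cq G K : ℕ}

/-- the test functions of one class -/
theorem fn_facts (H : Cst4 τ ty g Q R CF DF Cb m Cq G) (hK : 1 ≤ K) {h : ℕ} (hh : h < g) {q : ℕ × ℕ × ℕ × ℕ} (hq : q ∈ sysI (ty h).2.1 K) :
    Fn (sysN (ty h).2.1 K) (sysm (ty h).2.1) (sysm (ty h).2.1 * sysv (ty h).2.1 q) (sysf (ty h).2.1 q) ∧ sysm (ty h).2.1 ≤ m ∧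
      0 ≤ (sysm (ty h).2.1 : ℝ) * sysv (ty h).2.1 q ∧ (sysm (ty h).2.1 : ℝ) * sysv (ty h).2.1 q ≤ m ∧ 1 ≤ sysN (ty h).2.1 K ∧
      sysN (ty h).2.1 K ≤ m * 2 ^ K := by
  have Sy := sys_all (ty_cases H hh) hK
  have h1 := Sy.v_lo q hq
  have h2 := Sy.v_hi q hq
  have h3 : (0 : ℝ) ≤ sysv (ty h).2.1 q := le_trans (by positivity) h1
  have h4 : (sysm (ty h).2.1 : ℝ) ≤ m := by exact_mod_cast H.hm h hh
  refine ⟨Sy.fn q hq, H.hm h hh, mul_nonneg (Nat.cast_nonneg _) h3, ?_, Sy.N1, Sy.N2.trans (Nat.mul_le_mul_right _ (H.hm h hh))⟩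
  calc (sysm (ty h).2.1 : ℝ) * sysv (ty h).2.1 q ≤ m * 1 := mul_le_mul h4 h2 h3 (by positivity)
    _ = m := mul_one _

end

section

variable {F : Fam} {κ D K : ℕ} {a₀ ℓst a ℓ : ℝ}

theorem K_le (hK : 100 ≤ K) : 4 * K + 1 ≤ K ^ (2 * κ + 2) := by
  have h1 : K ^ 2 ≤ K ^ (2 * κ + 2) := Nat.pow_le_pow_right (by omega) (by omega)
  nlinarith

/-- the lengths are small -/
theorem len_small (B : F.Big κ D K) (S : F.St κ D K a₀ ℓst) (hℓ : 0 < ℓ) (h1 : a₀ ≤ a) (h2 : a + ℓ ≤ a₀ + ℓst) :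
    ℓ ≤ ℓst ∧ ℓst ≤ 1 ∧ ℓ * 2 ^ (K ^ (2 * κ + 2)) ≤ 1 ∧ ℓ * 2 ^ (4 * K + 1) ≤ 1 ∧ ℓst * 2 ^ K ≤ 1 := by
  have hle : ℓ ≤ ℓst := by linarith
  have hst := S.pos
  have hsm := S.sm
  have hK := B.hK
  have hKK := K_le (κ := κ) hK
  have h3 : ∀ n : ℕ, n ≤ K ^ (2 * κ + 2) → ℓst * 2 ^ n ≤ 1 := fun n hn =>
    (mul_le_mul_of_nonneg_left (pow_le_pow_right₀ (by norm_num) hn) hst.le).trans hsm
  refine ⟨hle, ?_, ?_, ?_, h3 K (by omega)⟩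
  · simpa using h3 0 (Nat.zero_le _)
  · exact (mul_le_mul_of_nonneg_right hle (by positivity)).trans hsm
  · exact (mul_le_mul_of_nonneg_right hle (by positivity)).trans (h3 _ hKK)

/-- the correlation of a power with a linear function -/
theorem corr_pw (hF : F.Ok) (hκ : 1 ≤ κ) (B : F.Big κ D K) (S : F.St κ D K a₀ ℓst) (hℓ : 0 < ℓ) (h1 : a₀ ≤ a) (h2 : a + ℓ ≤ a₀ + ℓst)
    {N₀ N₀' m₁ m₂ : ℕ} {w w' : ℝ} {f f' : ℝ → ℝ} (hf : Fn N₀ m₁ w f) (hf' : Fn N₀' m₂ w' f') (hm₁ : m₁ ≤ F.m) (hm₂ : m₂ ≤ F.m)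
    (hw0 : 0 ≤ w) (hw : w ≤ F.m) (hw0' : 0 ≤ w') (hw' : w' ≤ F.m) (hN : 1 ≤ N₀) (hN' : 1 ≤ N₀') (hN2 : N₀ ≤ F.m * 2 ^ K) (hN2' : N₀' ≤ F.m * 2 ^ K)
    {n : ℕ} (hn1 : 2 * F.P ≤ n) (hn2 : n ≤ 2 ^ (3 * K)) {Q₀ : ℕ} {T d' : ℝ} (hT0 : 0 < T)
    (hT1 : ((Q₀ : ℝ) + 1) * 2 ^ (24 * K) ≤ T * ℓ) (hT2 : T * (ℓ / 2 ^ (K ^ (2 * κ + 1))) ≤ 2 * (1 / 2) ^ (12 * K))
    (hE1 : 1 ≤ fp F.A₀ F.P n a / T → fp F.A₀ F.P n a / T ≤ 2 ^ (12 * K + 2) → EqA (fp F.A₀ F.P n a / T) Q₀ ((1 / 2) ^ (12 * K)))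
    (hE2 : 1 ≤ T / fp F.A₀ F.P n a → T / fp F.A₀ F.P n a ≤ 2 ^ (12 * K + 2) → EqA (T / fp F.A₀ F.P n a) Q₀ ((1 / 2) ^ (12 * K))) :
    |av (fun x => f (pwf F.A₀ F.cp F.P n x) * f' (T * x + d')) a ℓ| ≤ 6 * (F.m : ℝ) ^ 2 * (1 / 2) ^ (12 * K) := by
  obtain ⟨hle, hst1, hsm, h41, -⟩ := len_small B S hℓ h1 h2
  have hm1 := hF.H.m1
  have hA := hF.hA
  have hP := hF.hP
  have hK := B.hK
  have hx₁ := hF.h1
  have ha1 : F.x₁ ≤ a := S.lo.trans h1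
  have ha0 : 0 < a := by linarith
  have hnP : F.P ≤ n := by omega
  have hS0 : 0 < fp F.A₀ F.P n a := fp_pos hA hP (by omega) ha0
  have hwZ : (1 / 2 : ℝ) ^ (12 * K) * 2 ^ (12 * K) = 1 := by rw [← mul_pow]; norm_num
  have hZ1 : (1 : ℝ) ≤ 2 ^ (12 * K) := one_le_pow₀ (by norm_num)
  have hQ0 : (0 : ℝ) ≤ Q₀ := Nat.cast_nonneg _
  have hZ2 : (2 : ℝ) ^ (24 * K) = 2 ^ (12 * K) * 2 ^ (12 * K) := by rw [← pow_add]; congr 1; ring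
  have hTQ : ((Q₀ : ℝ) + 1) * 2 ^ (12 * K) ≤ T * ℓ := by
    refine le_trans ?_ hT1
    rw [hZ2]
    have : 0 ≤ ((Q₀ : ℝ) + 1) * 2 ^ (12 * K) := by positivity
    nlinarith
  have hTℓ : (2 : ℝ) ^ (12 * K) ≤ T * ℓ := by
    refine le_trans ?_ hTQ
    exact le_mul_of_one_le_left (by positivity) (by linarith)
  -- the two functions
  have hpos : ∀ x ∈ Icc a (a + ℓ), 0 < x := fun x hx => lt_of_lt_of_le ha0 hx.1
  have hcv : Cv (pwf F.A₀ F.cp F.P n) (fp F.A₀ F.P n) a (a + ℓ) := by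
    refine ⟨pwf_meas _ _ _ _, fun x hx => pwf_deriv F.cp (hpos x hx), fun x hx => fp_pos hA hP (by omega) (hpos x hx), ?_⟩
    intro x hx y hy hxy
    exact fp_mono hA hP hnP (hpos x hx) hxy
  have hcl : Cv (fun x => T * x + d') (fun _ => T) a (a + ℓ) := by
    refine ⟨by fun_prop, fun x _ => ?_, fun _ _ => hT0, fun _ _ _ _ _ => le_rfl⟩
    have h3 := ((hasDerivAt_id x).const_mul T).add_const d'
    simpa using h3
  have hV2 : fp F.A₀ F.P n (a + ℓ) ≤ 2 * fp F.A₀ F.P n a := by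
    have h3 := fp_near hA hP hnP hn2 (δ := ℓ) (a := a) (x := a + ℓ) (by linarith) (by linarith) le_rfl h41
    have h4 : (2 : ℝ) ^ (3 * K + 1) * ℓ ≤ 1 := by
      have h5 : (2 : ℝ) ^ (3 * K + 1) ≤ 2 ^ (4 * K + 1) := pow_le_pow_right₀ (by norm_num) (by omega)
      have h6 := mul_le_mul_of_nonneg_right h5 hℓ.le
      linarith
    have h5 : fp F.A₀ F.P n a * (1 + 2 ^ (3 * K + 1) * ℓ) ≤ fp F.A₀ F.P n a * 2 := mul_le_mul_of_nonneg_left (by linarith) hS0.le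
    linarith
  have hcomm : ∀ x : ℝ, f (pwf F.A₀ F.cp F.P n x) * f' (T * x + d') = f' (T * x + d') * f (pwf F.A₀ F.cp F.P n x) := fun x => mul_comm _ _
  rcases le_or_gt (fp F.A₀ F.P n a) ((1 / 2) ^ (12 * K) * T) with c1 | c1
  · exact corr_far5_of (fun {_ _ _ _ _ _ _ _} hf h hpq => cv_int hf h hpq)
      (fun {_ _ _ _ _ _ _ _} hf h hpq {_} hg hg1 {_} hη => cv_far hf h hpq hg hg1 hη) hm1 hf hf' hm₁ hw0' hw' hcv hcl hℓ hV2 c1 hTℓ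
  rcases le_or_gt T ((1 / 2) ^ (12 * K) * fp F.A₀ F.P n a) with c2 | c2
  · simp_rw [hcomm]
    refine corr_far5_of (fun {_ _ _ _ _ _ _ _} hf h hpq => cv_int hf h hpq)
      (fun {_ _ _ _ _ _ _ _} hf h hpq {_} hg hg1 {_} hη => cv_far hf h hpq hg hg1 hη) hm1 hf' hf hm₂ hw0 hw hcl hcv hℓ (by linarith) c2 ?_
    refine hTℓ.trans (mul_le_mul_of_nonneg_right ?_ hℓ.le)
    have h3 : (1 / 2 : ℝ) ^ (12 * K) ≤ 1 := pow_le_one₀ (by norm_num) (by norm_num)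
    nlinarith
  -- near
  have c1' : T < 2 ^ (12 * K) * fp F.A₀ F.P n a := by
    have h3 := mul_lt_mul_of_pos_left c1 (show (0 : ℝ) < 2 ^ (12 * K) by positivity)
    calc T = ((1 / 2 : ℝ) ^ (12 * K) * 2 ^ (12 * K)) * T := by rw [hwZ, one_mul]
      _ = 2 ^ (12 * K) * ((1 / 2) ^ (12 * K) * T) := by ring
      _ < _ := h3
  have c2' : fp F.A₀ F.P n a < 2 ^ (12 * K) * T := by
    have h3 := mul_lt_mul_of_pos_left c2 (show (0 : ℝ) < 2 ^ (12 * K) by positivity)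
    calc fp F.A₀ F.P n a = ((1 / 2 : ℝ) ^ (12 * K) * 2 ^ (12 * K)) * fp F.A₀ F.P n a := by rw [hwZ, one_mul]
      _ = 2 ^ (12 * K) * ((1 / 2) ^ (12 * K) * fp F.A₀ F.P n a) := by ring
      _ < _ := h3
  have hZ3 : (2 : ℝ) ^ (12 * K) ≤ 2 ^ (12 * K + 2) := pow_le_pow_right₀ (by norm_num) (by omega)
  -- `T ℓ ≤ 2 (1/2)^(12K) 2^Λ`
  have hTΛ : T * ℓ ≤ 2 * (1 / 2) ^ (12 * K) * 2 ^ (K ^ (2 * κ + 1)) := by
    have h3 : (0 : ℝ) < 2 ^ (K ^ (2 * κ + 1)) := by positivity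
    have h4 : T * (ℓ / 2 ^ (K ^ (2 * κ + 1))) = T * ℓ / 2 ^ (K ^ (2 * κ + 1)) := by ring
    rw [h4, div_le_iff₀ h3] at hT2
    exact hT2
  have hV : fp F.A₀ F.P n a * ℓ ≤ 2 ^ (K ^ (2 * κ + 1) + 30 * K) := by
    have h3 : fp F.A₀ F.P n a * ℓ ≤ 2 ^ (12 * K) * (T * ℓ) := by
      calc fp F.A₀ F.P n a * ℓ ≤ 2 ^ (12 * K) * T * ℓ := mul_le_mul_of_nonneg_right c2'.le hℓ.le
        _ = _ := by ring
    have h4 : 2 ^ (12 * K) * (T * ℓ) ≤ 2 * 2 ^ (K ^ (2 * κ + 1)) := by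
      calc 2 ^ (12 * K) * (T * ℓ) ≤ 2 ^ (12 * K) * (2 * (1 / 2) ^ (12 * K) * 2 ^ (K ^ (2 * κ + 1))) := mul_le_mul_of_nonneg_left hTΛ (by positivity)
        _ = ((1 / 2 : ℝ) ^ (12 * K) * 2 ^ (12 * K)) * (2 * 2 ^ (K ^ (2 * κ + 1))) := by ring
        _ = _ := by rw [hwZ, one_mul]
    have h5 : (2 : ℝ) * 2 ^ (K ^ (2 * κ + 1)) = 2 ^ (K ^ (2 * κ + 1) + 1) := by rw [pow_succ]; ring
    have h6 : (2 : ℝ) ^ (K ^ (2 * κ + 1) + 1) ≤ 2 ^ (K ^ (2 * κ + 1) + 30 * K) := pow_le_pow_right₀ (by norm_num) (by omega)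
    linarith
  have hlinp := pwf_lin hF hκ hK hnP hn2 ha1 hℓ hsm hV
  have hlinT : ∀ x ∈ Icc a (a + ℓ), |(T * x + d') - (T * x + d')| ≤ (1 / 2 : ℝ) ^ (16 * K) := by
    intro x _
    rw [sub_self, abs_zero]
    positivity
  have hW0 : (0 : ℝ) ≤ (1 / 2) ^ (12 * K) := by positivity
  rcases le_total (fp F.A₀ F.P n a) T with c3 | c3
  · -- the power is slower
    have hE := hE2 (by rw [one_le_div hS0]; exact c3) (by rw [div_le_iff₀ hS0]; nlinarith)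
    refine corr_near5 hF.m12 hf hf' hm₂ hN hN' hN2 hN2' hW0 le_rfl hS0 c3 hℓ hE ?_ (pwf_meas _ _ _ _) (by fun_prop) hlinp hlinT
    have h3 : (1 / 2 : ℝ) ^ (12 * K) * (((Q₀ : ℝ) + 1) * 2 ^ (24 * K)) ≤ (1 / 2 : ℝ) ^ (12 * K) * (T * ℓ) := mul_le_mul_of_nonneg_left hT1 hW0
    have h4 : (1 / 2 : ℝ) ^ (12 * K) * (((Q₀ : ℝ) + 1) * 2 ^ (24 * K)) = ((Q₀ : ℝ) + 1) * 2 ^ (12 * K) := by
      rw [hZ2]
      calc (1 / 2 : ℝ) ^ (12 * K) * (((Q₀ : ℝ) + 1) * (2 ^ (12 * K) * 2 ^ (12 * K))) =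
          ((1 / 2 : ℝ) ^ (12 * K) * 2 ^ (12 * K)) * (((Q₀ : ℝ) + 1) * 2 ^ (12 * K)) := by ring
        _ = _ := by rw [hwZ, one_mul]
    rw [h4] at h3
    refine h3.trans ?_
    calc (1 / 2 : ℝ) ^ (12 * K) * (T * ℓ) = ((1 / 2 : ℝ) ^ (12 * K) * T) * ℓ := by ring
      _ ≤ _ := mul_le_mul_of_nonneg_right c1.le hℓ.le
  · -- the linear function is slower
    have hE := hE1 (by rw [one_le_div hT0]; exact c3) (by rw [div_le_iff₀ hT0]; nlinarith)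
    simp_rw [hcomm]
    exact corr_near5 hF.m12 hf' hf hm₁ hN' hN hN2' hN2 hW0 le_rfl hT0 c3 hℓ hE hTQ (by fun_prop) (pwf_meas _ _ _ _) hlinT hlinp

/-- the exponent of the test is small -/
theorem test_exp (hF : F.Ok) (hκ : 1 ≤ κ) (B : F.Big κ D K) (S : F.St κ D K a₀ ℓst) (hℓ : 0 < ℓ) (h1 : a₀ ≤ a) (h2 : a + ℓ ≤ a₀ + ℓst)
    (hcount : ∀ s < (F.g + 1) * F.Q, F.T a₀ ℓst s (ℓ / 2 ^ (K ^ (2 * κ + 1))) + F.R * K ≤ 2 ^ (2 * K)) {h u : ℕ} (hh : h < F.g)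
    (hu : F.τ5 h ^ u * ℓ ≤ 2 * (1 / 2) ^ (12 * K) * 2 ^ (K ^ (2 * κ + 1))) : u ≤ 2 ^ (3 * K) := by
  have hle : ℓ ≤ ℓst := by linarith
  have hlow := len_low hF hκ B S hℓ hle hcount
  refine exp_bound' hF B hh ?_
  set E : ℕ := 2 ^ (2 * K) * (F.Cx + 1) + F.Cx with hE
  have hW : (1 / 2 : ℝ) ^ (12 * K) ≤ 1 := pow_le_one₀ (by norm_num) (by norm_num)
  have h3 : F.τ5 h ^ u * ℓ ≤ 2 * 2 ^ E * ℓ := by
    calc F.τ5 h ^ u * ℓ ≤ 2 * (1 / 2) ^ (12 * K) * 2 ^ (K ^ (2 * κ + 1)) := hu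
      _ ≤ 2 * 1 * 2 ^ (K ^ (2 * κ + 1)) := by gcongr
      _ ≤ 2 * 1 * (ℓ * 2 ^ E) := by gcongr
      _ = 2 * 2 ^ E * ℓ := by ring
  have h4 : F.τ5 h ^ u ≤ 2 * 2 ^ E := le_of_mul_le_mul_right h3 hℓ
  refine h4.trans ?_
  have h5 : (2 : ℝ) * 2 ^ E = 2 ^ (E + 1) := by rw [pow_succ]; ring
  rw [h5]
  refine pow_le_pow_right₀ (by norm_num) ?_
  have h6 : 1 ≤ 2 ^ (2 * K) := Nat.one_le_two_pow
  have h7 : F.Cx + 1 ≤ 2 ^ (2 * K) * (F.Cx + 1) := Nat.le_mul_of_pos_left _ h6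
  have h8 : 2 ^ (2 * K) * (2 * F.Cx + 2) = 2 ^ (2 * K) * (F.Cx + 1) + 2 ^ (2 * K) * (F.Cx + 1) := by ring
  rw [h8, hE]
  omega

open Classical in
/-- TST1: the test of a linear class -/
theorem test_lin (hF : F.Ok) (hκ : 1 ≤ κ) (B : F.Big κ D K) (S : F.St κ D K a₀ ℓst) (hℓ : 0 < ℓ) (h1 : a₀ ≤ a) (h2 : a + ℓ ≤ a₀ + ℓst)
    (hcount : ∀ s < (F.g + 1) * F.Q, F.T a₀ ℓst s (ℓ / 2 ^ (K ^ (2 * κ + 1))) + F.R * K ≤ 2 ^ (2 * K)) {s' : ℕ} (hs' : s' / F.Q < F.g) :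
    TestU F.ty5 (F.g + 1) F.Q F.m κ (F.U a₀ ℓst) K a ℓ s' := by
  obtain ⟨hle, hst1, hsm, h41, hstK⟩ := len_small B S hℓ h1 h2
  obtain ⟨Q₀, ε, hQ₀, -, hε0, hε, hTT⟩ := B.hTT
  have hK := B.hK
  have hK1 : 1 ≤ K := by omega
  have H := hF.H
  have hQ : 1 ≤ F.Q := H.base.hQ
  have hg' : s' / F.Q < F.g + 1 := by omega
  have hs'g : s' < F.g * F.Q := (Nat.div_lt_iff_lt_mul (by omega)).1 hs'
  have hs'lt : s' < (F.g + 1) * F.Q := by rw [Nat.succ_mul]; omega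
  obtain ⟨u, u1, u2, u3, u4⟩ := hTT (s' / F.Q) hs' (s' % F.Q) (Nat.mod_lt _ (by omega)) ℓ hℓ (hle.trans hst1)
  have hτ' : 1 < F.τ5 (s' / F.Q) := H.base.hτ _ hg'
  have hT0 : 0 < F.τ5 (s' / F.Q) ^ u := pow_pos (by linarith) _
  have hfr : fr F.τ5 F.Q s' (u / F.Q) = F.τ5 (s' / F.Q) ^ u := by
    unfold fr
    rw [← u1, Nat.div_add_mod]
  have hQ0 : (0 : ℝ) ≤ Q₀ := Nat.cast_nonneg _
  have h24 : ((Q₀ : ℝ) + 1) * 2 ^ (24 * K) ≤ F.τ5 (s' / F.Q) ^ u * ℓ := by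
    refine le_trans (mul_le_mul_of_nonneg_left (pow_le_pow_right₀ (by norm_num) ?_) (by linarith)) u2
    exact Nat.mul_le_mul_right _ (by omega)
  have h24' : (2 : ℝ) ^ (24 * K) ≤ F.τ5 (s' / F.Q) ^ u * ℓ := by
    refine le_trans ?_ h24
    exact le_mul_of_one_le_left (by positivity) (by linarith)
  have hone : 1 ≤ F.τ5 (s' / F.Q) ^ u * ℓ := (one_le_pow₀ (by norm_num)).trans h24'
  have hTΛ : F.τ5 (s' / F.Q) ^ u * ℓ ≤ 2 * (1 / 2) ^ (12 * K) * 2 ^ (K ^ (2 * κ + 1)) := by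
    have h3 : (0 : ℝ) < 2 ^ (K ^ (2 * κ + 1)) := by positivity
    have h4 : F.τ5 (s' / F.Q) ^ u * (ℓ / 2 ^ (K ^ (2 * κ + 1))) = F.τ5 (s' / F.Q) ^ u * ℓ / 2 ^ (K ^ (2 * κ + 1)) := by ring
    have h5 := u3
    rw [h4, div_le_iff₀ h3] at h5
    exact h5
  have hlt1 : F.τ5 (s' / F.Q) ^ u * (ℓ / 2 ^ (K ^ (2 * κ + 1))) < 1 := by
    have h3 : (1 / 2 : ℝ) ^ (12 * K) ≤ (1 / 2) ^ 2 := pow_le_pow_of_le_one (by norm_num) (by norm_num) (by omega)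
    norm_num at h3
    linarith
  have htm : tm F.τ5 F.Q s' ℓ ≤ u / F.Q := tm_le (by rw [hfr]; exact hone)
  have htm2 : tm F.τ5 F.Q s' ℓst ≤ u / F.Q := (tm_mono hQ hτ' hℓ hle).trans htm
  have htm3 : u / F.Q < tm F.τ5 F.Q s' (ℓ / 2 ^ (K ^ (2 * κ + 1))) := tm_gt hQ hτ' (by positivity) (by rw [hfr]; exact hlt1)
  have ht : u / F.Q - tm F.τ5 F.Q s' ℓst < 2 ^ (2 * K) := by
    have h3 := hcount s' hs'lt
    unfold Fam.T at h3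
    rw [if_pos hs'] at h3
    omega
  have hU' : ∀ x, F.U a₀ ℓst s' (u / F.Q - tm F.τ5 F.Q s' ℓst) x = F.τ5 (s' / F.Q) ^ u * x + F.c (F.τ5 (s' / F.Q) ^ u) := by
    intro x
    unfold Fam.U
    rw [if_pos hs']
    unfold Us lin
    simp only
    rw [Nat.add_sub_cancel' htm2, hfr]
  refine ⟨u / F.Q - tm F.τ5 F.Q s' ℓst, ht, fun q' hq' => ?_⟩
  obtain ⟨hf', hm₂, hw0', hw', hN', hN2'⟩ := fn_facts H hK1 hg' hq'
  refine ⟨?_, ?_, ?_⟩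
  · -- the children
    simp only [hU']
    refine (few4 hf' hN' hT0 hℓ Nat.one_le_two_pow).trans ?_
    have h3 : (((2 ^ (K ^ (2 * κ + 1)) : ℕ)) : ℝ) = 2 ^ (K ^ (2 * κ + 1)) := by push_cast; rfl
    rw [h3]
    gcongr
  · -- the mean
    simp only [hU']
    have h3 := int_lin hf' (d := F.c (F.τ5 (s' / F.Q) ^ u)) hT0 a (a + ℓ)
    unfold av
    rw [abs_div, abs_of_pos hℓ, div_le_iff₀ hℓ]
    refine h3.trans ?_
    rw [div_le_iff₀ hT0]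
    have h4 : (1 / 2 : ℝ) ^ (24 * K) * 2 ^ (24 * K) = 1 := by rw [← mul_pow]; norm_num
    have h5 : 1 ≤ (1 / 2 : ℝ) ^ (24 * K) * (F.τ5 (s' / F.Q) ^ u * ℓ) :=
      h4.symm.le.trans (mul_le_mul_of_nonneg_left h24' (by positivity))
    have h6 : (0 : ℝ) ≤ F.m := Nat.cast_nonneg _
    calc (sysm (F.ty5 (s' / F.Q)).2.1 : ℝ) * sysv (F.ty5 (s' / F.Q)).2.1 q' ≤ F.m := hw'
      _ ≤ F.m * ((1 / 2 : ℝ) ^ (24 * K) * (F.τ5 (s' / F.Q) ^ u * ℓ)) := le_mul_of_one_le_right h6 h5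
      _ = F.m * (1 / 2) ^ (24 * K) * ℓ * F.τ5 (s' / F.Q) ^ u := by ring
  · intro s hs q hq j hj
    simp only [hU']
    have hW0 : (0 : ℝ) ≤ (F.m : ℝ) ^ 2 * (1 / 2) ^ (12 * K) := by positivity
    by_cases hsg : s / F.Q < F.g
    · -- a linear class
      have hUs : ∀ x, F.U a₀ ℓst s j x = F.τ5 (s / F.Q) ^ (F.Q * (tm F.τ5 F.Q s ℓst + j) + s % F.Q) * x +
          F.c (F.τ5 (s / F.Q) ^ (F.Q * (tm F.τ5 F.Q s ℓst + j) + s % F.Q)) := by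
        intro x
        unfold Fam.U
        rw [if_pos hsg]
        rfl
      simp only [hUs]
      have hv : (F.Q * (tm F.τ5 F.Q s ℓst + j) + s % F.Q) % F.Q = s % F.Q := by rw [Nat.mul_add_mod, Nat.mod_mod]
      have h3 := corr_all H hK1 hF.hc hε0 hε hℓ a hs hs'lt hq hq' hv u1 u2 (u4 (s / F.Q) hsg _)
      have h4 : (if s = s' ∧ F.Q * (tm F.τ5 F.Q s ℓst + j) + s % F.Q = u ∧ q = q' then sysv (F.ty5 (s / F.Q)).2.1 q else 0) =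
          (if s = s' ∧ j = u / F.Q - tm F.τ5 F.Q s' ℓst ∧ q = q' then sysv (F.ty5 (s / F.Q)).2.1 q else 0) := by
        refine if_congr ?_ rfl rfl
        constructor
        · rintro ⟨e1, e2, e3⟩
          refine ⟨e1, ?_, e3⟩
          subst e1
          have e4 : (F.Q * (tm F.τ5 F.Q s ℓst + j) + s % F.Q) / F.Q = tm F.τ5 F.Q s ℓst + j := by
            rw [Nat.mul_add_div (by omega), Nat.div_eq_of_lt (Nat.mod_lt s (by omega)), add_zero]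
          rw [← e2, e4]
          omega
        · rintro ⟨e1, e2, e3⟩
          refine ⟨e1, ?_, e3⟩
          subst e1
          rw [e2, Nat.add_sub_cancel' htm2, ← u1, Nat.div_add_mod]
      rw [h4] at h3
      refine h3.trans ?_
      nlinarith
    · -- the powers
      have hsg2 : s / F.Q < F.g + 1 := Cst.idx_lt hs
      have hUs : ∀ x, F.U a₀ ℓst s j x = pwf F.A₀ F.cp F.P (F.Q * (tp F.A₀ F.P F.Q (s % F.Q) a₀ ℓst + j) + s % F.Q) x := by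
        intro x
        unfold Fam.U
        rw [if_neg hsg]
      simp only [hUs]
      rw [if_neg (fun h => hsg (by rw [h.1]; exact hs')), sub_zero]
      obtain ⟨hf, hm₁, hw0, hw, hN, hN2⟩ := fn_facts H hK1 hsg2 hq
      have he : s % F.Q < F.Q := Nat.mod_lt _ (by omega)
      have hbig := tp_big hF B.hCx S.lo (by linarith [S.hi, S.pos]) S.pos hstK (s % F.Q)
      have hn1 : 2 * F.P ≤ F.Q * (tp F.A₀ F.P F.Q (s % F.Q) a₀ ℓst + j) + s % F.Q := by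
        have h3 : F.P ≤ F.P * F.Q := Nat.le_mul_of_pos_right _ (by omega)
        have h4 : F.Q * (tp F.A₀ F.P F.Q (s % F.Q) a₀ ℓst + j) = F.Q * tp F.A₀ F.P F.Q (s % F.Q) a₀ ℓst + F.Q * j := by ring
        have h5 : 4 * F.P * F.Q = 4 * (F.P * F.Q) := by ring
        rw [h4]
        rw [h5] at hbig
        omega
      have hn2 := tp_bound hF hκ B S he hj.le
      have hu3 : u ≤ 2 ^ (3 * K) := test_exp hF hκ B S hℓ h1 h2 hcount hs' hTΛ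
      have hnr := (S.nr a ⟨h1, by linarith⟩).2 _ hn1 hn2 (s' / F.Q) hs' u hu3
      exact corr_pw hF hκ B S hℓ h1 h2 hf hf' hm₁ hm₂ hw0 hw hw0' hw' hN hN' hN2 hN2' hn1 hn2 hT0 h24 u3
        (fun h3 h4 => NRa_EqA hK1 (hnr.1 h3 h4) hQ₀) (fun h3 h4 => NRa_EqA hK1 (hnr.2 h3 h4) hQ₀)

end

end Pool.Agent.Helper14.LD5
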